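import Mathlib
import Pool.Agent.H945B.A8
import Pool.Agent.H661R3.CM.RMult
import Pool.Agent.H661R3.CM.TMult

/-! Bounded Cohen–Macaulay type does not descend from the completion.

Definitions used in the statement (file `Pool/Agent/H661R3/CM/Defs.lean`):
`IsMCM`, `dimNat`, `mult`, `Indec`, `BoundedCMType`. -/

set_option autoImplicit false
set_option linter.style.haveILetI false

namespace Pool.Agent.Results.MP_8741c9_al.NotDescend

open IsLocalRing Pool.Agent.H661R3.CM Pool.Agent.H945B

theorem dvd_equiv {A B : Type} [CommRing A] [CommRing B] (e : A ≃+* B) {a : A} {b : B} :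
    e a ∣ b ↔ a ∣ e.symm b := by
  constructor
  · rintro ⟨c, rfl⟩
    exact ⟨e.symm c, by simp⟩
  · rintro ⟨c, hc⟩
    refine ⟨e c, ?_⟩
    rw [← map_mul, ← hc, RingEquiv.apply_symm_apply]

/-- Transport of the structure along an isomorphism. -/
theorem ainf_equiv {A B : Type} [CommRing A] [CommRing B] [IsLocalRing A] [IsLocalRing B]
    (e : A ≃+* B) {x u v : A} (h : AInf A x u v) : AInf B (e x) (e u) (e v) where
  max := by
    rw [← IsLocalRing.map_ringEquiv_maximalIdeal e, h.max, Ideal.map_span, Set.image_insert_eq,
      Set.image_pair]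
  uv := by rw [← map_mul, h.uv, map_zero]
  annu := by
    intro t ht
    rw [dvd_equiv e]
    apply h.annu
    apply e.injective
    rw [map_mul, RingEquiv.apply_symm_apply, ht, map_zero]
  annv := by
    intro t ht
    rw [dvd_equiv e]
    apply h.annv
    apply e.injective
    rw [map_mul, RingEquiv.apply_symm_apply, ht, map_zero]
  xreg := by
    intro t ht
    have h1 : e.symm t = 0 := by
      apply h.xreg
      apply e.injective
      rw [map_mul, RingEquiv.apply_symm_apply, ht, map_zero]
    rw [← e.apply_symm_apply t, h1, map_zero]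
  xu := by
    intro t ht
    rw [dvd_equiv e] at ht ⊢
    apply h.xu
    rwa [map_mul, RingEquiv.symm_apply_apply] at ht
  xv := by
    intro t ht
    rw [dvd_equiv e] at ht ⊢
    apply h.xv
    rwa [map_mul, RingEquiv.symm_apply_apply] at ht
  puv := by
    have h1 : Ideal.span {e u, e v} = (Ideal.span {u, v}).map (e : A →+* B) := by
      rw [Ideal.map_span, Set.image_pair]; rfl
    rw [h1]
    have := h.puv
    exact Ideal.map_isPrime_of_equiv e
  pux := by
    have h1 : Ideal.span {e u, e x} = (Ideal.span {u, x}).map (e : A →+* B) := by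
      rw [Ideal.map_span, Set.image_pair]; rfl
    rw [h1]
    have := h.pux
    exact Ideal.map_isPrime_of_equiv e
  pvx := by
    have h1 : Ideal.span {e v, e x} = (Ideal.span {v, x}).map (e : A →+* B) := by
      rw [Ideal.map_span, Set.image_pair]; rfl
    rw [h1]
    have := h.pvx
    exact Ideal.map_isPrime_of_equiv e

/-- `S` is a Cohen–Macaulay local ring. -/
def IsCMLocal (S : Type) [CommRing S] : Prop := ∃ _ : IsLocalRing S, IsMCM S S

/-- `S` is flat over the local ring `R`, the structure map is a local homomorphism and the closed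
fibre `S / 𝔪S` is a Cohen–Macaulay local ring. -/
def FlatLocalCMFibre (R S : Type) [CommRing R] [IsLocalRing R] [CommRing S] [Algebra R S] : Prop :=
  Module.Flat R S ∧ IsLocalHom (algebraMap R S) ∧
    IsCMLocal (S ⧸ (maximalIdeal R).map (algebraMap R S))

/-- `R^` is Noetherian of bounded CM type, `R` is not of bounded CM type, and `R → R^` is flat
local with Cohen–Macaulay closed fibre. -/
def DescentFails (R : Type) [CommRing R] [IsLocalRing R] [IsNoetherianRing R] : Prop :=
  IsNoetherianRing (AdicCompletion (maximalIdeal R) R) ∧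
    BoundedCMType (AdicCompletion (maximalIdeal R) R) ∧ ¬ BoundedCMType R ∧
    FlatLocalCMFibre R (AdicCompletion (maximalIdeal R) R)

/-- **Bounded Cohen–Macaulay type does not descend from the completion** (negative answer to Q1
and to Q2): there is a Cohen–Macaulay (Noetherian) local domain `R` such that the completion
`R^` has bounded Cohen–Macaulay type and `R` does not. Moreover `R → R^` is a flat local
homomorphism whose closed fibre is a Cohen–Macaulay local ring (a field). -/
theorem result : ∃ (R : Type) (_ : CommRing R) (_ : IsLocalRing R) (_ : IsNoetherianRing R),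
    IsDomain R ∧ IsMCM R R ∧ DescentFails R := by
  obtain ⟨σ, hσ, hσt⟩ := exists_sigma
  haveI hN : IsNoetherianRing (RR σ) := noeth σ hσ hσt
  haveI hD : IsDomain (RR σ) := noZeroDiv σ hσ
  haveI hF : Module.Flat (RR σ) (TT ℚ) := flatRT σ hσ hσt
  refine ⟨RR σ, inferInstance, isLocal_R σ, hN, hD, ?_, ?_, ?_, ?_, ?_, ?_, ?_⟩
  · -- `R` is Cohen–Macaulay
    refine ⟨inferInstance, [xR σ, zR σ], ?_, ?_, ?_⟩
    · intro r hr
      simp only [List.mem_cons, List.not_mem_nil, or_false] at hr
      rcases hr with rfl | rfl
      · exact xR_mem σ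
      · exact zR_mem σ
    · rw [dimR σ hσ hσt]
      rfl
    · apply RingTheory.Sequence.IsRegular.of_isWeaklyRegular_of_mem_maximalIdeal
      · intro r hr
        rcases List.mem_pair.1 hr with rfl | rfl
        · exact xR_mem σ
        · exact zR_mem σ
      · rw [weaklyRegular_pair_iff]
        constructor
        · intro b hb
          exact (mul_eq_zero.1 hb).resolve_left (xR_ne_zero σ)
        · intro b b' hb
          exact n2 σ hσ b b' hb
  · exact isNoetherianRing_of_ringEquiv (TT ℚ) (compEquiv σ hσ)
  · haveI : IsNoetherianRing (AdicCompletion (maximalIdeal (RR σ)) (RR σ)) :=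
      isNoetherianRing_of_ringEquiv (TT ℚ) (compEquiv σ hσ)
    apply bounded_of_AInf _ (ainf_equiv (compEquiv σ hσ) ainf2.toAInf)
    rw [← ringKrullDim_eq_of_ringEquiv (compEquiv σ hσ), dimT]
  · exact not_bounded (RR σ) ainf2 (maxT_eq σ hσ).symm (hreg σ hσ) (hprimes σ hσ hσt)
      (hsurj σ hσ) (xR σ) (zR σ) rfl (xR_mem σ) (zR_mem σ) (xR_ne_zero σ) (n2 σ hσ)
      (n3 σ hσ) (n4 σ hσ) (dimR σ hσ hσt)
  · exact AdicCompletion.flat_of_isNoetherian _
  · infer_instance
  · have hmax : ((maximalIdeal (RR σ)).map (algebraMap (RR σ)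
        (AdicCompletion (maximalIdeal (RR σ)) (RR σ)))).IsMaximal := by
      rw [← AdicCompletion.maximalIdeal_eq_map]
      infer_instance
    have hfield := (Ideal.Quotient.maximal_ideal_iff_isField_quotient _).1 hmax
    haveI hloc : IsLocalRing (AdicCompletion (maximalIdeal (RR σ)) (RR σ) ⧸
        (maximalIdeal (RR σ)).map (algebraMap (RR σ)
          (AdicCompletion (maximalIdeal (RR σ)) (RR σ)))) := by
      letI := hfield.toField
      infer_instance
    refine ⟨hloc, inferInstance, [], by simp, ?_, ?_⟩
    · rw [ringKrullDim_eq_zero_of_isField hfield]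
      rfl
    · apply RingTheory.Sequence.IsRegular.of_isWeaklyRegular_of_mem_maximalIdeal
      · simp
      · simp

end Pool.Agent.Results.MP_8741c9_al.NotDescend
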